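import Pool.Agent.W_MP_24dbe6_h58.Final
import Pool.Agent.W_MP_24dbe6_h58.Curve
import Pool.Agent.W_MP_24dbe6_h58.RigidC

set_option autoImplicit false

/-!
# Dense mapping class group orbits of SU(2)-characters of holed spheres

The orbit of `[ρ]` is dense in the relative character variety `X_t` containing it iff `X_t` is a point, or
the orbit is infinite and either exactly four boundary holonomies are non-central or the image of `ρ` is
dense.  Moreover `X_t` is a point iff at most three boundary holonomies are non-central or `ρ` is rigid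
(`Rigid`), and the orbit is infinite iff `ρ` has a good curve (`GoodCurve`).
-/

namespace Pool.Agent.Results.MP_24dbe6_gt.DenseOrbits

open Pool.Agent.W24dbe6

theorem result (n : ℕ) (ρ : Pi1 n →* SU2) :
    (DenseOrbit ρ ↔ (relChar ρ).Subsingleton ∨
      ((orb ρ).Infinite ∧ (numNC ρ = 4 ∨ Dense (Set.range ρ)))) ∧
    ((relChar ρ).Subsingleton ↔ numNC ρ ≤ 3 ∨ Rigid ρ) ∧
    ((orb ρ).Infinite ↔ GoodCurve ρ) :=
  ⟨dense_iff ρ, subsingleton_iff ρ, infinite_iff_curve ρ⟩

end Pool.Agent.Results.MP_24dbe6_gt.DenseOrbits
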